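import Pool.Agent.H61.CMC.TargetsE1
import Pool.Agent.H12.RC.GS

/-!
# Gaussian sums converge
-/

set_option autoImplicit false

open MeasureTheory Set Filter
open scoped Real

namespace Pool.Agent.H61.CMC1

open Pool.Agent.H61.CMC

theorem pf_GAS : T_GAS := by
  intro J _ _ A R hA
  have hA2 : ((1 / 2 : ℝ) • A).det ≠ 0 := by
    rw [Matrix.det_smul]
    exact mul_ne_zero (by positivity) hA
  obtain ⟨B, hB, hb⟩ := Pool.Agent.H12.RC.pf_GS (J × Fin 2) ((1 / 2 : ℝ) • A) ∅ hA2 (fun _ => 0)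
  have h1 : ∀ n : J × Fin 2 → ℤ,
      Real.exp (-π * ∑ i, (mv A n i) ^ 2 / 4) ≤ B n := by
    intro n
    have h2 := hb n (fun _ => 0) (fun i => ⟨le_refl _, zero_le_one⟩)
    refine le_trans (le_of_eq ?_) h2
    simp only [Pool.Agent.H28.RC.gj, Finset.prod_empty, one_mul, zero_add, add_zero]
    rw [abs_of_pos (Real.exp_pos _)]
    congr 1
    congr 1
    refine Finset.sum_congr rfl fun i _ => ?_
    rw [Matrix.smul_mulVec]
    simp only [Pi.smul_apply, smul_eq_mul, mv]
    ring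
  have hN : ∀ n : J × Fin 2 → ℤ,
      Real.exp (-π * ∑ i, (mv A n i) ^ 2 + R * ∑ i, |mv A n i|) ≤
        Real.exp (Fintype.card (J × Fin 2) * R ^ 2) * B n := by
    intro n
    refine le_trans ?_ (mul_le_mul_of_nonneg_left (h1 n) (Real.exp_pos _).le)
    rw [← Real.exp_add]
    apply Real.exp_le_exp.mpr
    have h3 : ∀ i : J × Fin 2, -π * (mv A n i) ^ 2 + R * |mv A n i| ≤
        R ^ 2 + -π * ((mv A n i) ^ 2 / 4) := by
      intro i
      have hp := Real.pi_gt_three
      have h4 : |mv A n i| ^ 2 = (mv A n i) ^ 2 := sq_abs _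
      rw [← h4]
      nlinarith [sq_nonneg (R - |mv A n i| / 2), sq_nonneg (|mv A n i|), sq_nonneg R]
    have h5 := Finset.sum_le_sum (fun i (_ : i ∈ Finset.univ) => h3 i)
    rw [Finset.sum_add_distrib, Finset.sum_add_distrib, ← Finset.mul_sum, ← Finset.mul_sum,
      ← Finset.mul_sum, Finset.sum_const, Finset.card_univ, nsmul_eq_mul] at h5
    exact h5
  exact Summable.of_nonneg_of_le (fun n => (Real.exp_pos _).le) hN (hB.mul_left _)

end Pool.Agent.H61.CMC1
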