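import Pool.Agent.H61.CMC.TargetsE1
import Pool.Agent.H63.CM4B.PHI
import Pool.Agent.H61.CM4B.AsmB1

/-!
# The completed function with the angular factor
-/

set_option autoImplicit false

open MeasureTheory Set Filter NumberField NumberField.InfinitePlace NumberField.Units
  NumberField.Units.dirichletUnitTheorem Pool.Agent.H65.CM4 Pool.Agent.H65.CMC Pool.Agent.H25.HK
  Pool.Agent.H61.CM4 Pool.Agent.H61.CMC Pool.Agent.H63.CM4B
open scoped Real

namespace Pool.Agent.H61.CMC1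

/-- scaling of the Dirichlet series -/
theorem Zd3_eq {k : Type} [Field k] [NumberField k] [IsTotallyReal k] (m : Pl k → ℤ) (M : La k)
    (x y : Pl k → ℝ)
    (hq : ∀ u : V2 k, u ≠ 0 → 0 < qp x y u) (h0 : ∀ u : V2 k, u ∈ Fo k → u ≠ 0) (a : ℝ)
    (ha : 0 < a) (s : ℂ) :
    Zd3 m M x y a s = (a : ℂ) ^ (-s) * Zd3 m M x y 1 s := by
  unfold Zd3
  rw [← tsum_mul_left]
  refine tsum_congr fun u => ?_
  split_ifs with hu
  · have h1 := hq u (h0 u hu.2)
    rw [one_mul, Complex.ofReal_mul, Complex.mul_cpow_ofReal_nonneg ha.le h1.le]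
    ring
  · rw [mul_zero]

theorem GM_eq {k : Type} [Field k] [NumberField k] [IsTotallyReal k] (m : Pl k → ℤ) (s : ℂ)
    (hcard : Fintype.card (Pl k) = dg k) :
    (s * (s - 1)) ^ dg k * ((2 * (π : ℂ)) ^ (∑ v, wa m v) *
      ∏ v, (Complex.Gamma (s + (wa m v : ℂ)) * (2 * (π : ℂ)) ^ (-(s + (wa m v : ℂ))))) =
      GM m s := by
  have h2 : (2 * (π : ℂ)) ≠ 0 := by
    exact_mod_cast (by positivity : (2 : ℝ) * π ≠ 0)
  have e1 : (s * (s - 1)) ^ dg k = ∏ _v : Pl k, (s * (s - 1)) := by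
    rw [Finset.prod_const, Finset.card_univ, hcard]
  have e2 : (2 * (π : ℂ)) ^ (∑ v, wa m v) = ∏ v, (2 * (π : ℂ)) ^ wa m v :=
    (Finset.prod_pow_eq_pow_sum _ _ _).symm
  rw [e1, e2, ← Finset.prod_mul_distrib, ← Finset.prod_mul_distrib]
  unfold GM
  refine Finset.prod_congr rfl fun v _ => ?_
  unfold gg
  have e3 : ((|m v| : ℤ) : ℂ) = (wa m v : ℂ) := by
    unfold wa
    rw [Nat.cast_natAbs]
  have e4 : (2 * (π : ℂ)) ^ (-(s + (wa m v : ℂ))) * (2 * (π : ℂ)) ^ wa m v =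
      (2 * (π : ℂ)) ^ (-s) := by
    rw [← Complex.cpow_natCast, ← Complex.cpow_add _ _ h2]
    congr 1
    ring
  rw [e3, ← e4]
  ring

open scoped Classical in
theorem pf_PH3 (hWP3 : T_WP3) (hME3 : T_ME3) : T_PH3 := by
  intro k _ _ _ m M x y hM hy
  obtain ⟨hdk, hdg, hcard, -, hdu, -⟩ := Pool.Agent.H61.CM4B.c_IXD k
  obtain ⟨P, hPf, hPg, hPk, hPe, hPf0, hPg0⟩ := hWP3 k m M x y hM hy
  have hq : ∀ u : V2 k, u ≠ 0 → 0 < qp x y u := (Pool.Agent.H61.CM4B.c_EZA k M x y hM hy).1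
  have hFo : ∀ u : V2 k, u ∈ Fo k → u ≠ 0 := fun u hu => hu.1
  have hmN : 0 < ix M := Nat.pos_of_ne_zero hM
  have hm1 : (1 : ℝ) ≤ (ix M : ℝ) := by exact_mod_cast hmN
  have hm0 : (0 : ℝ) < (ix M : ℝ) := by linarith
  have hDN : 0 < Dm M := Nat.mul_pos hdk hmN
  have hD0 : (0 : ℝ) < (Dm M : ℝ) := by exact_mod_cast hDN
  have hdk0 : (0 : ℝ) < (dk k : ℝ) := by exact_mod_cast hdk
  obtain ⟨K, hK⟩ : ∃ K : ℂ, K = (2 * (π : ℂ)) ^ (∑ v, wa m v) := ⟨_, rfl⟩
  obtain ⟨Q, hQ⟩ : ∃ Q : ℂ → ℂ, Q = fun s => ∏ v, (Complex.Gamma (s + (wa m v : ℂ)) *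
    (2 * (π : ℂ)) ^ (-(s + (wa m v : ℂ)))) := ⟨_, rfl⟩
  have hQs : ∀ s : ℂ, (∏ v, (Complex.Gamma (s + (wa m v : ℂ)) *
    (2 * (π : ℂ)) ^ (-(s + (wa m v : ℂ))))) = Q s := fun s => by rw [hQ]
  have hgG : ∀ s : ℂ, GM m s = (s * (s - 1)) ^ dg k * (K * Q s) := by
    intro s
    rw [← GM_eq m s hcard, hK, hQs]
  have h2n : (2 : ℂ) ^ (dg k - 1) * (2 * ((2 : ℂ) ^ dg k)⁻¹) = 1 := by
    obtain ⟨l, hl⟩ : ∃ l, dg k = l + 1 := ⟨dg k - 1, by omega⟩
    rw [hl, Nat.add_sub_cancel, pow_succ]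
    have : (2 : ℂ) ^ l ≠ 0 := pow_ne_zero _ two_ne_zero
    field_simp
  refine ⟨fun s => K * PhiF P (ix M : ℝ) (dg k) s,
    (differentiable_const K).mul (PhiF_diff P _ _ hm0), ?_, ?_, ?_⟩
  · intro s hs
    have hs0 : s ≠ 0 := by
      intro h
      rw [h, Complex.zero_re] at hs
      linarith
    have hs1 : s ≠ 1 := by
      intro h
      rw [h, Complex.one_re] at hs
      exact lt_irrefl _ hs
    simp only
    rw [PhiF_eq P _ _ hdg hPk s hs0 hs1]
    have hre : P.k < (2 * s).re := by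
      rw [hPk]
      have : (2 * s).re = 2 * s.re := by simp
      rw [this]
      linarith
    have h1 := (P.hasMellin hre).2
    have h2 : (fun t => P.f t - P.f₀) = fun t => f3 m M x y t - c3 m := by
      funext t
      rw [hPf, hPf0]
    rw [h2, hME3 k m M x y s hM hy hs, hQs] at h1
    rw [← h1, Zd3_eq m M x y hq hFo _ (inv_pos.2 hm0) s, hgG]
    have h3 : (((ix M : ℝ)⁻¹ : ℝ) : ℂ) ^ (-s) = ((ix M : ℝ) : ℂ) ^ s := by
      rw [Complex.ofReal_inv, Complex.inv_cpow, Complex.cpow_neg, inv_inv]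
      rw [Complex.arg_ofReal_of_nonneg hm0.le]
      exact Real.pi_pos.ne
    rw [h3]
    linear_combination (K * ((ix M : ℝ) : ℂ) ^ s * (s * (s - 1)) ^ dg k *
      Q s * Zd3 m M x y 1 s) * h2n
  · intro s hs
    have hs0 : (1 - s : ℂ) ≠ 0 := by
      intro h
      have h1 : s = 1 := by linear_combination -h
      rw [h1, Complex.one_re] at hs
      exact lt_irrefl _ hs
    have hs1 : (1 - s : ℂ) ≠ 1 := by
      intro h
      have h1 : s = 0 := by linear_combination -h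
      rw [h1, Complex.zero_re] at hs
      linarith
    simp only
    rw [PhiF_eq P _ _ hdg hPk (1 - s) hs0 hs1]
    have hre : P.symm.k < (2 * s).re := by
      change P.k < _
      rw [hPk]
      have : (2 * s).re = 2 * s.re := by simp
      rw [this]
      linarith
    have h0 : P.Λ (2 * (1 - s)) = P.ε • P.symm.Λ (2 * s) := by
      rw [← P.functional_equation, hPk]
      congr 1
      push_cast
      ring
    have h1 := (P.symm.hasMellin hre).2
    have hDn : (0 : ℝ) < ((Dm M : ℝ) ^ dg k)⁻¹ := by positivity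
    have h2 : (fun t => P.symm.f t - P.symm.f₀) =
        fun t => (fun r => f3 m (du M) x y r - c3 m) (((Dm M : ℝ) ^ dg k)⁻¹ * t) := by
      funext t
      change P.g t - P.g₀ = _
      rw [hPg, hPg0]
    have h8 := mellin_comp_mul_left (fun r => f3 m (du M) x y r - c3 m) (2 * s) hDn
    rw [h2] at h1
    replace h1 := h8.symm.trans h1
    rw [hME3 k m (du M) x y s (hdu M hM) hy hs, hQs, smul_eq_mul] at h1
    rw [h0, ← h1, hPe, smul_eq_mul, Zd3_eq m (du M) x y hq hFo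
      ((ix M : ℝ) / (Dm M : ℝ) ^ (2 * dg k)) (by positivity) s, hgG]
    have h3 : ((((Dm M : ℝ) ^ dg k)⁻¹ : ℝ) : ℂ) ^ (-(2 * s)) =
        (((Dm M : ℝ) ^ (2 * dg k) : ℝ) : ℂ) ^ s := by
      rw [Complex.cpow_def_of_ne_zero (by exact_mod_cast hDn.ne'),
        Complex.cpow_def_of_ne_zero (by exact_mod_cast (pow_pos hD0 _).ne'),
        ← Complex.ofReal_log hDn.le, ← Complex.ofReal_log (pow_pos hD0 _).le, Real.log_inv,
        Real.log_pow, Real.log_pow]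
      congr 1
      push_cast
      ring
    have h4 : ((((ix M : ℝ) / (Dm M : ℝ) ^ (2 * dg k)) : ℝ) : ℂ) ^ (-s) =
        ((ix M : ℝ) : ℂ) ^ (-s) * (((Dm M : ℝ) ^ (2 * dg k) : ℝ) : ℂ) ^ s := by
      have h5 : (0 : ℝ) < (ix M : ℝ) / (Dm M : ℝ) ^ (2 * dg k) := by positivity
      rw [Complex.cpow_def_of_ne_zero (by exact_mod_cast h5.ne'),
        Complex.cpow_def_of_ne_zero (by exact_mod_cast hm0.ne'),
        Complex.cpow_def_of_ne_zero (by exact_mod_cast (pow_pos hD0 _).ne'),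
        ← Complex.ofReal_log h5.le, ← Complex.ofReal_log hm0.le,
        ← Complex.ofReal_log (pow_pos hD0 _).le,
        Real.log_div hm0.ne' (pow_pos hD0 _).ne', ← Complex.exp_add]
      congr 1
      push_cast
      ring
    have h5 : ((ix M : ℝ) : ℂ) ^ (1 - s) = ((ix M : ℝ) : ℂ) * ((ix M : ℝ) : ℂ) ^ (-s) := by
      rw [sub_eq_add_neg, Complex.cpow_add _ _ (by exact_mod_cast hm0.ne'), Complex.cpow_one]
    have h6 : ((1 / dk k : ℝ) : ℂ) = ((ix M : ℝ) : ℂ) * (((Dm M : ℝ)⁻¹ : ℝ) : ℂ) := by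
      rw [← Complex.ofReal_mul]
      congr 1
      unfold Dm
      push_cast
      field_simp
    have h7 : ((1 - s) * (1 - s - 1)) ^ dg k = (s * (s - 1)) ^ dg k := by
      congr 1
      ring
    rw [h3, h4, h5, h6, h7]
    linear_combination (K * ((ix M : ℝ) : ℂ) * ((ix M : ℝ) : ℂ) ^ (-s) *
      (((Dm M : ℝ)⁻¹ : ℝ) : ℂ) * (((Dm M : ℝ) ^ (2 * dg k) : ℝ) : ℂ) ^ s *
      (s * (s - 1)) ^ dg k * Q s * Zd3 m (du M) x y 1 s) * h2n
  · intro b
    obtain ⟨C, j, h⟩ := PhiF_growth P _ (dg k) hm1 b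
    refine ⟨‖K‖ * C, j, fun s hs => ?_⟩
    rw [norm_mul, mul_assoc]
    exact mul_le_mul_of_nonneg_left (h s hs) (norm_nonneg _)

end Pool.Agent.H61.CMC1
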