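import Pool.Agent.H61.CMC.TargetsE1
import Pool.Agent.H66.HK.FD
import Pool.Agent.H87.HK.YC
import Pool.Agent.H21.CM4B.IXD

/-!
# The pair of functions for the abstract functional equation, with the angular factor
-/

set_option autoImplicit false

open MeasureTheory Set Filter NumberField NumberField.InfinitePlace NumberField.Units
  NumberField.Units.dirichletUnitTheorem Pool.Agent.H65.CM4 Pool.Agent.H65.CMC Pool.Agent.H25.HK
  Pool.Agent.H61.CM4 Pool.Agent.H61.CMC Asymptotics
open scoped Real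

namespace Pool.Agent.H61.CMC1

open scoped Classical in
section
variable (k : Type) [Field k] [NumberField k] [IsTotallyReal k]

theorem wp3_lattice (l : logSpace k) (hl : l ∈ unitLattice k) :
    ∃ u : (𝓞 k)ˣ, logEmbedding k (Additive.ofMul u) = l := by
  obtain ⟨b, -, hb⟩ := hl
  exact ⟨b.toMul, hb⟩

/-- the averaged theta function in the logarithmic variable -/
noncomputable def g3 (m : Pl k → ℤ) (M : La k) (x y : Pl k → ℝ) (τ : ℝ) : ℂ :=
  ∫ z in Fd k, th3 m M x y (yc k τ z)

theorem f3_eq (m : Pl k → ℤ) (M : La k) (x y : Pl k → ℝ) (t : ℝ) :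
    f3 m M x y t = g3 k m M x y (Real.log t) := rfl

/-- a compact box containing the fundamental domain -/
def bx3 (B : ℝ) : Set (logSpace k) := Set.pi univ (fun _ => Icc (-B) B)

theorem bx3_compact (B : ℝ) : IsCompact (bx3 k B) := isCompact_univ_pi (fun _ => isCompact_Icc)

theorem fd3_sub (B : ℝ) (hB : ∀ z ∈ Fd k, ∀ w, |z w| ≤ B) : Fd k ⊆ bx3 k B := by
  intro z hz w _
  exact abs_le.mp (hB z hz w)

theorem cont_th3 (hCT : T_CT3) (hYC : T_YC) (m : Pl k → ℤ) (M : La k) (x y : Pl k → ℝ)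
    (hy : ∀ v, 0 < y v) :
    Continuous (fun p : ℝ × logSpace k => th3 m M x y (yc k p.1 p.2)) :=
  (hCT k m M x y hy).comp (hYC k).2.2.2.2.1

theorem cont_th3' (hCT : T_CT3) (hYC : T_YC) (m : Pl k → ℤ) (M : La k) (x y : Pl k → ℝ)
    (hy : ∀ v, 0 < y v) (τ : ℝ) :
    Continuous (fun z : logSpace k => th3 m M x y (yc k τ z)) := by
  have h1 := cont_th3 k hCT hYC m M x y hy
  have h2 : Continuous (fun z : logSpace k => ((τ, z) : ℝ × logSpace k)) :=
    Continuous.prodMk_right τ
  have h3 := h1.comp h2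
  exact h3

theorem g3_cont (hCT : T_CT3) (hYC : T_YC) (hFD : T_FD) (m : Pl k → ℤ) (M : La k)
    (x y : Pl k → ℝ) (hy : ∀ v, 0 < y v) : Continuous (g3 k m M x y) := by
  obtain ⟨hmeas, ⟨B, hB⟩, -⟩ := hFD k
  have h1 := continuous_parametric_integral_of_continuous (μ := volume.restrict (Fd k))
    (f := fun (τ : ℝ) (z : logSpace k) => th3 m M x y (yc k τ z)) (s := bx3 k B)
    (cont_th3 k hCT hYC m M x y hy) (bx3_compact k B)
  have h2 : (volume.restrict (Fd k)).restrict (bx3 k B) = volume.restrict (Fd k) := by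
    rw [Measure.restrict_restrict (bx3_compact k B).measurableSet,
      inter_eq_self_of_subset_right (fd3_sub k B hB)]
  rw [h2] at h1
  exact h1

theorem th3_int' (hFD : T_FD) (g : logSpace k → ℂ) (hg : Continuous g) :
    IntegrableOn g (Fd k) ∧ IntegrableOn (fun z => g (-z)) (Fd k) := by
  obtain ⟨hmeas, ⟨B, hB⟩, -⟩ := hFD k
  have h2 : Continuous (fun z => g (-z)) := hg.comp continuous_neg
  exact ⟨(hg.continuousOn.integrableOn_compact (bx3_compact k B)).mono_set (fd3_sub k B hB),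
    (h2.continuousOn.integrableOn_compact (bx3_compact k B)).mono_set (fd3_sub k B hB)⟩

theorem fd_neg (hFD : T_FD) (g : logSpace k → ℂ) (hg : Continuous g)
    (hl : ∀ z, ∀ l ∈ unitLattice k, g (z + l) = g z) :
    ∫ z in Fd k, g (-z) = ∫ z in Fd k, g z := by
  obtain ⟨h1, h2⟩ := th3_int' k hFD g hg
  have hF := (hFD k).2.2.2.2.2.2
  apply Complex.ext
  · have e1 := integral_re h1
    have e2 := integral_re h2
    simp only [RCLike.re_to_complex] at e1 e2
    rw [← e1, ← e2]
    exact hF (fun z => (g z).re) (fun z l hl' => by rw [hl z l hl'])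
  · have e1 := integral_im h1
    have e2 := integral_im h2
    simp only [RCLike.im_to_complex] at e1 e2
    rw [← e1, ← e2]
    exact hF (fun z => (g z).im) (fun z l hl' => by rw [hl z l hl'])

theorem f3_locInt (hCT : T_CT3) (hYC : T_YC) (hFD : T_FD) (m : Pl k → ℤ) (M : La k)
    (x y : Pl k → ℝ) (hy : ∀ v, 0 < y v) (a : ℝ) (ha : 0 < a) :
    LocallyIntegrableOn (fun t => f3 m M x y (a * t)) (Ioi 0) := by
  apply ContinuousOn.locallyIntegrableOn _ measurableSet_Ioi
  have h1 : ContinuousOn (fun t : ℝ => Real.log (a * t)) (Ioi 0) := by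
    apply ContinuousOn.log
    · exact continuousOn_const.mul continuousOn_id
    · intro t ht
      exact (mul_pos ha ht).ne'
  exact (g3_cont k hCT hYC hFD m M x y hy).comp_continuousOn h1

theorem f3_feq (hTH : T_TH3) (hUI : T_UI3) (hCT : T_CT3) (hYC : T_YC) (hFD : T_FD)
    (hIXD : T_IXD) (m : Pl k → ℤ) (M : La k)
    (x y : Pl k → ℝ) (hM : ix M ≠ 0) (hy : ∀ v, 0 < y v) (t : ℝ) (ht : 0 < t) :
    f3 m M x y (1 / t) =
      (((Dm M : ℝ)⁻¹ * t ^ 2 : ℝ) : ℂ) * f3 m (du M) x y (((Dm M : ℝ) ^ dg k)⁻¹ * t) := by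
  obtain ⟨hdk, hdg, -⟩ := hIXD k
  have hD : (0 : ℝ) < Dm M := by
    unfold Dm
    exact_mod_cast Nat.mul_pos hdk (Nat.pos_of_ne_zero hM)
  obtain ⟨hY1, hY2, hY3, hY4, hY5, hY6⟩ := hYC k
  set τ := Real.log t with hτ
  have hlog : Real.log (((Dm M : ℝ) ^ dg k)⁻¹ * t) = τ - dg k * Real.log (Dm M) := by
    rw [Real.log_mul (by positivity) ht.ne', Real.log_inv, Real.log_pow, hτ]
    ring
  have hmult : ∀ v : Pl k, (v.mult : ℝ) = 1 := by
    intro v
    unfold InfinitePlace.mult
    rw [if_pos (IsTotallyReal.isReal v)]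
    simp
  have h1 : ∀ z : logSpace k, th3 m M x y (yc k (Real.log (1 / t)) z) =
      (((Dm M : ℝ)⁻¹ * t ^ 2 : ℝ) : ℂ) *
        th3 m (du M) x y (yc k (τ - dg k * Real.log (Dm M)) (-z)) := by
    intro z
    rw [(hTH k m M x y _ hM hy).2]
    have e1 : Real.log (1 / t) = -τ := by rw [one_div, Real.log_inv]
    rw [e1]
    have e0 : ∑ v : Pl k, yc k (-τ) z v = 2 * (-τ) := by
      rw [← hY1 (-τ) z]
      exact Finset.sum_congr rfl (fun v _ => by rw [hmult v, one_mul])
    rw [e0]
    have e2 : (fun v => -yc k (-τ) z v - 2 * Real.log (Dm M)) =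
        yc k (τ - dg k * Real.log (Dm M)) (-z) := by
      funext v
      have h3 := congrFun (hY2 τ (-z)) v
      rw [neg_neg, Pi.neg_apply] at h3
      rw [h3, neg_neg, hY4 τ (-z) v, hY4 (τ - dg k * Real.log (Dm M)) (-z) v]
      have h4 : (Module.finrank ℚ k : ℝ) = dg k := rfl
      have h5 : (dg k : ℝ) ≠ 0 := by exact_mod_cast hdg.ne'
      rw [h4]
      field_simp
      ring
    rw [e2]
    have e3 : Real.exp (-(2 * -τ)) = t ^ 2 := by
      rw [show -(2 * -τ) = τ + τ by ring, Real.exp_add, hτ, Real.exp_log ht]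
      ring
    rw [e3]
    congr 2
    ring
  have h2 : f3 m M x y (1 / t) = ∫ z in Fd k, (((Dm M : ℝ)⁻¹ * t ^ 2 : ℝ) : ℂ) *
      th3 m (du M) x y (yc k (τ - dg k * Real.log (Dm M)) (-z)) := by
    unfold f3
    exact integral_congr_ae (Eventually.of_forall h1)
  have h5 := fd_neg k hFD (fun z => th3 m (du M) x y (yc k (τ - dg k * Real.log (Dm M)) z))
    (cont_th3' k hCT hYC m (du M) x y hy _)
    (fun z l hl => by
      obtain ⟨u, rfl⟩ := wp3_lattice k l hl
      exact (hUI k m x y _ z u hy).2 (du M))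
  rw [h2, integral_const_mul, f3_eq, g3, hlog, h5]

theorem f3_top (hCT : T_CT3) (hYC : T_YC) (hFD : T_FD) (hDC : T_DC3) (m : Pl k → ℤ) (M : La k)
    (x y : Pl k → ℝ) (hy : ∀ v, 0 < y v) (r : ℝ) :
    (fun t => f3 m M x y t - c3 m) =O[atTop] (fun t : ℝ => t ^ r) := by
  obtain ⟨C, c, t₀, hc, -, hb⟩ := hDC k m M x y hy
  have hmeas := (hFD k).1
  have hlt := (hFD k).2.2.2.1
  set a : ℝ := (2 : ℝ) / dg k with ha
  have hapos : 0 < a := by
    have : 0 < dg k := Module.finrank_pos
    positivity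
  have h1 : ∀ t : ℝ, t₀ ≤ t → ‖f3 m M x y t - c3 m‖ ≤
      (vF k * C) * Real.exp (-c * t ^ a) := by
    intro t ht
    have e1 : f3 m M x y t - c3 m =
        ∫ z in Fd k, (th3 m M x y (yc k (Real.log t) z) - (if m = 0 then 1 else 0)) := by
      have e3 : IntegrableOn (fun z => th3 m M x y (yc k (Real.log t) z)) (Fd k) :=
        (th3_int' k hFD _ (cont_th3' k hCT hYC m M x y hy _)).1
      have e4 : IntegrableOn (fun _ : logSpace k => (if m = 0 then (1 : ℂ) else 0)) (Fd k) :=
        integrableOn_const (hs := hlt.ne)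
      rw [integral_sub e3 e4, setIntegral_const]
      unfold f3 c3 vF
      by_cases hm : m = 0
      · simp [hm]
      · simp [hm]
    rw [e1]
    have e2 := norm_setIntegral_le_of_norm_le_const (μ := volume) (s := Fd k) hlt
      (C := C * Real.exp (-c * t ^ a))
      (f := fun z => th3 m M x y (yc k (Real.log t) z) - (if m = 0 then 1 else 0))
      (fun z hz => hb t ht z hz)
    calc _ ≤ _ := e2
      _ = _ := by unfold vF; ring
  have h2 : (fun t : ℝ => Real.exp (-c * t ^ a)) =O[atTop] (fun t : ℝ => t ^ r) := by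
    have h3 := (isLittleO_exp_neg_mul_rpow_atTop hc (r / a)).isBigO.comp_tendsto
      (tendsto_rpow_atTop hapos)
    refine h3.congr' (Eventually.of_forall fun t => rfl) ?_
    filter_upwards [eventually_ge_atTop 0] with t ht
    simp only [Function.comp]
    rw [← Real.rpow_mul ht, mul_div_cancel₀ _ hapos.ne']
  refine IsBigO.trans ?_ h2
  refine IsBigO.of_bound (vF k * C) ?_
  filter_upwards [eventually_ge_atTop t₀] with t ht
  rw [Real.norm_eq_abs, Real.abs_exp]
  exact h1 t ht

theorem f3_top' (hCT : T_CT3) (hYC : T_YC) (hFD : T_FD) (hDC : T_DC3) (m : Pl k → ℤ) (M : La k)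
    (x y : Pl k → ℝ) (hy : ∀ v, 0 < y v) (a : ℝ) (ha : 0 < a) (r : ℝ) :
    (fun t => f3 m M x y (a * t) - c3 m) =O[atTop] (fun t : ℝ => t ^ r) := by
  have h1 := (f3_top k hCT hYC hFD hDC m M x y hy r).comp_tendsto
    (tendsto_id.const_mul_atTop ha)
  refine IsBigO.trans h1 ?_
  refine IsBigO.of_bound (a ^ r) ?_
  filter_upwards [eventually_ge_atTop 0] with t ht
  simp only [Function.comp, id]
  rw [Real.mul_rpow ha.le ht, norm_mul, Real.norm_of_nonneg (Real.rpow_nonneg ha.le r)]

end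

open scoped Classical in
theorem pf_WP3 (hTH3 : T_TH3) (hUI3 : T_UI3) (hCT3 : T_CT3) (hDC3 : T_DC3) : T_WP3 := by
  intro k _ _ _ m M x y hM hy
  have hIXD : T_IXD := Pool.Agent.H21.CM4B.pf_IXD
  have hFD : T_FD := Pool.Agent.H66.HK.fd
  have hYC : T_YC := Pool.Agent.H87.HK.yc_main
  have hD : (0 : ℝ) < Dm M := by
    unfold Dm
    exact_mod_cast Nat.mul_pos (hIXD k).1 (Nat.pos_of_ne_zero hM)
  have ha : (0 : ℝ) < ((Dm M : ℝ) ^ dg k)⁻¹ := by positivity
  refine ⟨{ f := fun t => f3 m M x y t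
            g := fun t => f3 m (du M) x y (((Dm M : ℝ) ^ dg k)⁻¹ * t)
            k := 2
            ε := (((Dm M : ℝ)⁻¹ : ℝ) : ℂ)
            f₀ := c3 m
            g₀ := c3 m
            hf_int := by
              have h := f3_locInt k hCT3 hYC hFD m M x y hy 1 one_pos
              simpa using h
            hg_int := f3_locInt k hCT3 hYC hFD m _ x y hy _ ha
            hk := two_pos
            hε := by
              rw [Ne, Complex.ofReal_eq_zero, inv_eq_zero]
              exact hD.ne'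
            h_feq := fun t ht => by
              have h2 : (t : ℝ) ^ (2 : ℝ) = t ^ 2 := by
                rw [← Real.rpow_natCast]; norm_num
              rw [f3_feq k hTH3 hUI3 hCT3 hYC hFD hIXD m M x y hM hy t ht, smul_eq_mul, h2]
              push_cast
              ring
            hf_top := fun r => f3_top k hCT3 hYC hFD hDC3 m M x y hy r
            hg_top := fun r => f3_top' k hCT3 hYC hFD hDC3 m _ x y hy _ ha r },
    fun t => rfl, fun t => rfl, rfl, rfl, rfl, rfl⟩

end Pool.Agent.H61.CMC1
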