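import Pool.Agent.H61.CM4B.AsmB1
import Pool.Agent.H61.CMC.BrG
import Pool.Agent.H98.CMC1.GMO
import Pool.Agent.H21.CMC1.GQU
import Pool.Agent.H38.CMC1.GXX
import Pool.Agent.H19.CMC1.GMA
import Pool.Agent.H90.CMC1.GMU
import Pool.Agent.H70.CMC1.GML
import Pool.Agent.H77.CMC1.KSG
import Pool.Agent.H42.CMC1.KDG
import Pool.Agent.H42.CMC1.SKG
import Pool.Agent.H39.CMC1.KBU
import Pool.Agent.H61.CMC1.GAS
import Pool.Agent.H72.CMC1.COE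
import Pool.Agent.H77.CMC1.PSE
import Pool.Agent.H67.CMC1.PSM
import Pool.Agent.H64.CMC1.ANG
import Pool.Agent.H40.CMC1.PQB
import Pool.Agent.H1.CMC1.TH3
import Pool.Agent.H26.CMC1.UI3
import Pool.Agent.H68.CMC1.CT3
import Pool.Agent.H58.CMC1.DC3
import Pool.Agent.H61.CMC1.WP3
import Pool.Agent.H10.CMC1.GI3
import Pool.Agent.H68.CMC1.ME3
import Pool.Agent.H61.CMC1.PH3
import Pool.Agent.H61.CMC1.EZ3

/-!
# The assembly of the part E1 (stage 2 of CM4)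
-/

set_option autoImplicit false

open MeasureTheory Set Filter NumberField NumberField.InfinitePlace Pool.Agent.H65.CM4
  Pool.Agent.H65.CMC Pool.Agent.H61.CM4 Pool.Agent.H61.CMC
open scoped Real

namespace Pool.Agent.H61.CMC1

theorem c_GMO : T_GMO := Pool.Agent.H98.CMC1.pf_GMO
theorem c_GQU : T_GQU := Pool.Agent.H21.CMC1.pf_GQU c_GMO
theorem c_GXX : T_GXX := Pool.Agent.H38.CMC1.pf_GXX c_GMO
theorem c_GMA : T_GMA := Pool.Agent.H19.CMC1.pf_GMA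
theorem c_GMU : T_GMU := Pool.Agent.H90.CMC1.pf_GMU c_GQU c_GXX
theorem c_GML : T_GML := Pool.Agent.H70.CMC1.pf_GML c_GXX
theorem c_KSG : T_KSG := Pool.Agent.H77.CMC1.pf_KSG
theorem c_KDG : T_KDG := Pool.Agent.H42.CMC1.pf_KDG
theorem c_SKG : T_SKG := Pool.Agent.H42.CMC1.pf_SKG c_KSG
theorem c_KBU : T_KBU := Pool.Agent.H39.CMC1.pf_KBU c_GMA c_KSG c_GMU
theorem c_GAS : T_GAS := pf_GAS
theorem c_COE : T_COE := Pool.Agent.H72.CMC1.pf_COE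
theorem c_PSE : T_PSE := Pool.Agent.H77.CMC1.pf_PSE c_GAS
theorem c_PSM : T_PSM := Pool.Agent.H67.CMC1.pf_PSM c_GAS c_COE c_PSE
theorem c_ANG : T_ANG := Pool.Agent.H64.CMC1.pf_ANG
theorem c_PQB : T_PQB := Pool.Agent.H40.CMC1.pf_PQB
theorem c_TH3 : T_TH3 := Pool.Agent.H1.CMC1.pf_TH3 c_GAS c_PSM c_ANG c_PQB
theorem c_UI3 : T_UI3 := Pool.Agent.H26.CMC1.pf_UI3 c_ANG
theorem c_CT3 : T_CT3 := Pool.Agent.H68.CMC1.pf_CT3 c_ANG c_PQB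
theorem c_DC3 : T_DC3 := Pool.Agent.H58.CMC1.pf_DC3 c_ANG c_PQB
theorem c_WP3 : T_WP3 := pf_WP3 c_TH3 c_UI3 c_CT3 c_DC3
theorem c_GI3 : T_GI3 := Pool.Agent.H10.CMC1.pf_GI3
theorem c_ME3 : T_ME3 :=
  Pool.Agent.H68.CMC1.pf_ME3 c_ANG c_PQB c_TH3 c_UI3 c_CT3 c_DC3 c_WP3 c_GI3
theorem c_PH3 : T_PH3 := pf_PH3 c_WP3 c_ME3
theorem c_EZ3 : T_EZ3 := pf_EZ3 c_GMA c_SKG c_ANG c_PH3

/-! The forms of the parts E and G. -/

theorem e_KCBm (k : Type) [Field k] [NumberField k] : Pool.Agent.H89.CMC.T_KCBm k :=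
  br_KCBm c_KBU k

theorem e_KCDm (k : Type) [Field k] [NumberField k] : Pool.Agent.H89.CMC.T_KCDm k :=
  br_KCDm c_KDG c_GMA k

theorem e_EZAm (k : Type) [Field k] [NumberField k] [IsTotallyReal k] :
    Pool.Agent.H89.CMC.T_EZAm k :=
  br_EZAm c_EZ3 c_ANG Pool.Agent.H61.CM4B.c_EZA k

theorem e_KCBn : Pool.Agent.H23.CMC.T_KCBn := g_KCBn c_KBU

theorem e_KCDn : Pool.Agent.H23.CMC.T_KCDn := g_KCDn c_KDG c_GMA

end Pool.Agent.H61.CMC1
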